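import Pool.Agent.Helper12.CL.Fin

set_option autoImplicit false

/-!
# Bounded clusters of primes `p` with no prime `2 k p + 1` up to the record size

For every `m` there is `B` such that infinitely many intervals of length `B` contain `m` primes `p` for each of which the
numbers `2 k p + 1` (or `a k p + b`, `a`, `b ≠ 0` fixed) are composite for all `0 < |k| ≤ c f(p)`, `f` the largest known size
of the gaps between primes. The starting result `RecordPrimeFreeMultiples` of this problem gives such primes, but one at a
time.

Proof. The residue class of `n` modulo the small primes has to be chosen such that few of the numbers `a k (n + t_j) + b`,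
`j = 1, …, K`, survive, for a tuple `t`. For the `j`-th member of the tuple, `n ≡ ρ (mod q)` kills the class of
`k ≡ -b / (a (ρ + t_j))`, so the classes for the different `j` are tied together by Möbius maps and Rankin's choice `k ≡ 0` is
not available. Instead `n ≡ 1` is taken modulo the smallest and the largest of these primes: then `k` survives for `j` if
the number `a k (1 + t_j) + b` has no such prime factor, and the usual count applies to these numbers; a greedy choice for all
the `K` families at once is made modulo the other primes (`Pool.Agent.Helper12.CL.survFam`). The rest is the coloured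
Maynard-Tao theorem with repelling weights `Pool.Agent.TH101.RG.engine` of the starting files.
-/

open Filter

namespace Pool.Agent.Results.MP_2f88e5_nt.ClustersWithPrimeFreeMultiples

/-- The record scale `f(x) = log x (log₂ x)² log₄ x / (log₃ x)²` (iterated natural logarithms). -/
noncomputable def f (x : ℝ) : ℝ :=
  Real.log x * (Real.log (Real.log x)) ^ 2 * Real.log (Real.log (Real.log (Real.log x))) /
    (Real.log (Real.log (Real.log x))) ^ 2

/-- For all `m` and all nonzero integers `a`, `b` there are `B` and `c > 0` such that for all large `X` the following holds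
for at least `X^(9/10)` integers `n ∈ (X, 3X]`: there is a set `P` of `m` primes in `[n, n + B]` such that for all `p ∈ P`
none of the numbers `|a k p + b|`, `k` an integer with `0 < |k| ≤ c f(X)`, is prime.

With `a = 2`, `b = 1` all the numbers `2 k p + 1` and `2 k p - 1`, `1 ≤ k ≤ c f(X)`, are composite for these `m` primes. -/
theorem result (m : ℕ) (a b : ℤ) (ha : a ≠ 0) (hb : b ≠ 0) : ∃ (B : ℕ) (c : ℝ), 0 < c ∧ ∃ X₀ : ℝ, ∀ X : ℝ, X₀ ≤ X →
    X ^ (9 / 10 : ℝ) ≤ ({n : ℕ | X < n ∧ (n : ℝ) ≤ 3 * X ∧ ∃ P : Finset ℕ, P.card = m ∧
      ∀ p ∈ P, p.Prime ∧ n ≤ p ∧ p ≤ n + B ∧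
        ∀ k : ℤ, k ≠ 0 → |(k : ℝ)| ≤ c * f X → ¬ (a * k * p + b).natAbs.Prime}.ncard : ℝ) := by
  obtain ⟨B, c, hc, h⟩ := Pool.Agent.Helper12.CL.clusters m a b ha hb
  obtain ⟨X₀, hX₀⟩ := eventually_atTop.1 h
  exact ⟨B, c, hc, X₀, hX₀⟩

end Pool.Agent.Results.MP_2f88e5_nt.ClustersWithPrimeFreeMultiples
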