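import Pool.Agent.Helper12.PK.All

set_option autoImplicit false

/-!
# Primes `p` all of whose multiples `2 k p`, `k` in a prescribed set, are far from primes

The starting result `RecordPrimeFreeMultiples` of this problem finds many primes `p` with no prime `a k p + b` for
`0 < |k| ≤ c f(p)`, for one fixed `b`. Here the multipliers `k` run through an arbitrary set `K` of nonzero integers (up to a
power of `log log X` times `log X`) with `∑ |k|/φ(|k|) ≤ c f(X)`, for example all the primes `k ≤ c f(X) log log X`, which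
goes beyond the record size `f`; and all `b` with `0 < |b| ≤ B` are treated at once: the multiples `a k p` are at a distance
`> B` from all primes (other than the multiple itself).

Proof: `Pool.Agent.TH101.RG.oneZ` of the starting files with the family `a z p + ℓ`, `z = (ℓ / b) k`, `ℓ = B!`: all the forms
`a k p + b` divide the forms of this family, in which a class of `z` modulo a prime `r` is killed by one class of `p`
modulo `r`.
-/

namespace Pool.Agent.Results.MP_2f88e5_nt.MultiplesFarFromPrimes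

/-- The record scale `f(x) = log x (log₂ x)² log₄ x / (log₃ x)²` (iterated natural logarithms). -/
noncomputable def f (x : ℝ) : ℝ :=
  Real.log x * (Real.log (Real.log x)) ^ 2 * Real.log (Real.log (Real.log (Real.log x))) /
    (Real.log (Real.log (Real.log x))) ^ 2

/-- The number of the primes `p ∈ (X, 3X]`, `p ≡ h (mod d)`, such that none of the numbers `|a k p + b|`, `k ∈ K`,
`0 < |b| ≤ B`, is prime. -/
noncomputable def count (B d h : ℕ) (a : ℤ) (K : Set ℤ) (X : ℝ) : ℕ :=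
  {p : ℕ | p.Prime ∧ X < p ∧ (p : ℝ) ≤ 3 * X ∧ p ≡ h [MOD d] ∧
    ∀ k ∈ K, ∀ b : ℤ, 1 ≤ |b| → |b| ≤ B → ¬ (a * k * p + b).natAbs.Prime}.ncard

/-- For all `A`, `B`, `a ≠ 0` and every squarefree `d` there is `c > 0` such that for all large `X` and all `h` prime to
`d`, for at least `X^(9/10)` primes `p ∈ (X, 3X]`, `p ≡ h (mod d)`, none of the numbers `|a k p + b|`, `k ∈ K`,
`0 < |b| ≤ B`, is prime, where `K` is any finite set of nonzero integers `|k| ≤ log X (log log X)^A` with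
`∑_{k ∈ K} |k|/φ(|k|) ≤ c f(X)`; for example `K` can be the set of all primes `k ≤ c f(X) log log X`. -/
theorem result (A B : ℕ) (a : ℤ) (ha : a ≠ 0) (d : ℕ) (hd : Squarefree d) : ∃ c : ℝ, 0 < c ∧ ∃ X₀ : ℝ,
    ∀ X : ℝ, X₀ ≤ X → ∀ h : ℕ, h.Coprime d →
    (∀ K : Finset ℤ, (∀ k ∈ K, k ≠ 0 ∧ |(k : ℝ)| ≤ Real.log X * (Real.log (Real.log X)) ^ A) →
      ∑ k ∈ K, (|(k : ℝ)| / (k.natAbs.totient : ℝ)) ≤ c * f X → X ^ (9 / 10 : ℝ) ≤ (count B d h a K X : ℝ)) ∧
    X ^ (9 / 10 : ℝ) ≤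
      (count B d h a {k : ℤ | ∃ r : ℕ, r.Prime ∧ k = r ∧ (r : ℝ) ≤ c * (f X * Real.log (Real.log X))} X : ℝ) := by
  have hφ : (0 : ℝ) < (a.natAbs.totient : ℝ) := by
    exact_mod_cast Nat.totient_pos.2 (Int.natAbs_pos.2 ha)
  obtain ⟨c, hc, X₀, hX₀⟩ := Pool.Agent.Helper12.PK.main_sets A B 1 1 (|(a : ℝ)| / (a.natAbs.totient : ℝ)) d hd
  refine ⟨c, hc, max X₀ (Real.exp |(a : ℝ)|), fun X hXX h hh => ?_⟩
  have haX : |(a : ℝ)| ≤ (Real.log X) ^ 1 := by
    rw [pow_one, ← Real.log_exp |(a : ℝ)|]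
    exact Real.log_le_log (Real.exp_pos _) ((le_max_right _ _).trans hXX)
  obtain ⟨h1, -, h3⟩ := hX₀ X ((le_max_left _ _).trans hXX) a ha haX (by rw [div_mul_cancel₀ _ hφ.ne']) h hh
  have hfin : ∀ Q : ℕ → Prop, {p : ℕ | p.Prime ∧ X < p ∧ (p : ℝ) ≤ 3 * X ∧ p ≡ h [MOD d] ∧ Q p}.Finite := by
    intro Q
    apply (Set.finite_Iic ⌊3 * X⌋₊).subset
    intro p hp
    exact Set.mem_Iic.2 (Nat.le_floor hp.2.2.1)
  have hfar : ∀ x : ℤ, Pool.Agent.Helper12.PK.Far B 1 x → ∀ b : ℤ, 1 ≤ |b| → |b| ≤ B → ¬ (x + b).natAbs.Prime := by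
    intro x hx b hb1 hb2 hp
    rcases Int.natAbs_eq (x + b) with h4 | h4
    · exact hx b 1 hb1 hb2 (by simp) (by simp) _ hp (by rw [one_mul]; exact h4.symm)
    · exact hx b (-1) hb1 hb2 (by simp) (by simp) _ hp (by rw [neg_one_mul]; exact h4.symm)
  refine ⟨fun K hK hKw => ?_, ?_⟩
  · refine (h1 K hK hKw).trans ?_
    rw [Nat.cast_le]
    refine Set.ncard_le_ncard ?_ (hfin _)
    rintro p ⟨g1, g2, g3, g4, g5⟩
    exact ⟨g1, g2, g3, g4, fun k hk => hfar _ (g5 k hk)⟩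
  · refine h3.trans ?_
    rw [Nat.cast_le]
    refine Set.ncard_le_ncard ?_ (hfin _)
    rintro p ⟨g1, g2, g3, g4, g5⟩
    refine ⟨g1, g2, g3, g4, ?_⟩
    rintro k ⟨r, hr, rfl, hle⟩
    exact hfar _ (g5 r hr hle)

end Pool.Agent.Results.MP_2f88e5_nt.MultiplesFarFromPrimes
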