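import Pool.Agent.Helper12.PK.All

set_option autoImplicit false

/-!
# Primes `p` with no prime `2 k p + 1` for all the perfect powers `k = m ^ s` up to the power `s` of the record size

The starting result `RecordPrimeFreeMultiples` of this problem finds many primes `p` with no prime `a k p + b` for
`0 < |k| ≤ c f(p)`, `f` the largest known size of the gaps between primes. Here the multipliers are the perfect powers
`k = m ^ s` of a fixed exponent `s`, and they are cleared much further: for all `m ≤ c f(X)`, that is `k ≤ (c f(X)) ^ s`; for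
example no `2 m² p + 1` is prime, `1 ≤ m ≤ c f(X)`.

Proof: `Pool.Agent.TH101.RG.oneZ` of the starting files with the family `a z ^ s p + b`: a class of `z` modulo a prime `r` is
killed by one class of `p` modulo `r`.
-/

namespace Pool.Agent.Results.MP_2f88e5_nt.PowerMultipliers

/-- The record scale `f(x) = log x (log₂ x)² log₄ x / (log₃ x)²` (iterated natural logarithms). -/
noncomputable def f (x : ℝ) : ℝ :=
  Real.log x * (Real.log (Real.log x)) ^ 2 * Real.log (Real.log (Real.log (Real.log x))) /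
    (Real.log (Real.log (Real.log x))) ^ 2

/-- For all `s ≥ 1`, all nonzero integers `a`, `b` and every squarefree `d` there is `c > 0` such that for all large `X` and
all `h` prime to `d`: for at least `X^(9/10)` primes `p ∈ (X, 3X]`, `p ≡ h (mod d)`, none of the numbers `|a m ^ s p + b|`,
`1 ≤ m ≤ c f(X)`, is prime. -/
theorem result (s : ℕ) (hs : 1 ≤ s) (a b : ℤ) (ha : a ≠ 0) (hb : b ≠ 0) (d : ℕ) (hd : Squarefree d) :
    ∃ c : ℝ, 0 < c ∧ ∃ X₀ : ℝ, ∀ X : ℝ, X₀ ≤ X → ∀ h : ℕ, h.Coprime d →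
    X ^ (9 / 10 : ℝ) ≤ ({p : ℕ | p.Prime ∧ X < p ∧ (p : ℝ) ≤ 3 * X ∧ p ≡ h [MOD d] ∧
      ∀ m : ℕ, 1 ≤ m → (m : ℝ) ≤ c * f X → ¬ (a * (m : ℤ) ^ s * p + b).natAbs.Prime}.ncard : ℝ) := by
  have hφ : (0 : ℝ) < (a.natAbs.totient : ℝ) := by
    exact_mod_cast Nat.totient_pos.2 (Int.natAbs_pos.2 ha)
  obtain ⟨c, hc, X₀, hX₀⟩ :=
    Pool.Agent.Helper12.PK.main_powers 1 1 1 s hs (|(a : ℝ)| / (a.natAbs.totient : ℝ)) d hd b hb
  refine ⟨c, hc, max X₀ (Real.exp |(a : ℝ)|), fun X hXX h hh => ?_⟩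
  have haX : |(a : ℝ)| ≤ (Real.log X) ^ 1 := by
    rw [pow_one, ← Real.log_exp |(a : ℝ)|]
    exact Real.log_le_log (Real.exp_pos _) ((le_max_right _ _).trans hXX)
  obtain ⟨-, h2⟩ := hX₀ X ((le_max_left _ _).trans hXX) a ha haX (by rw [div_mul_cancel₀ _ hφ.ne']) h hh
  refine h2.trans ?_
  rw [Nat.cast_le]
  refine Set.ncard_le_ncard ?_ ?_
  · rintro p ⟨g1, g2, g3, g4, g5⟩
    refine ⟨g1, g2, g3, g4, fun m hm1 hm2 hp => ?_⟩
    rcases Int.natAbs_eq (a * (m : ℤ) ^ s * p + b) with h4 | h4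
    · exact g5 m hm1 hm2 1 (by simp) (by simp) _ hp (by rw [one_mul]; exact h4.symm)
    · exact g5 m hm1 hm2 (-1) (by simp) (by simp) _ hp (by rw [neg_one_mul]; exact h4.symm)
  · apply (Set.finite_Iic ⌊3 * X⌋₊).subset
    intro p hp
    exact Set.mem_Iic.2 (Nat.le_floor hp.2.2.1)

end Pool.Agent.Results.MP_2f88e5_nt.PowerMultipliers
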