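import Pool.Agent.Helper12.PK.Runs

set_option autoImplicit false

/-!
# Primes `p` with no prime `2 k p + 1` for all `k` in a window of record size around any prescribed integer

The starting result `RecordPrimeFreeMultiples` of this problem finds many primes `p` with no prime `a k p + b` for
`0 < |k| ≤ c f(X)`: the first terms of the progression `b` modulo `a p` are composite. Here the window is placed around an
arbitrary integer `k₀`, `|k₀| ≤ X ^ D`, for example anywhere in the range `k < 2 (p + 1)` of the question: for at least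
`X ^ (9/10)` primes `p ∈ (X, 3X]` none of the numbers `2 k p + 1`, `k ≠ 0`, `|k - k₀| ≤ c f(X)`, is prime. So near every
prescribed place (up to a power of `X`) the progressions `1` modulo `2 p` of these primes `p` have gaps between primes of
length `≥ c' p f(p)`, where `f` is the largest known size of the gaps between all primes.

Proof: the covering `coverK` of the starting files (`Pool.Agent.TH101.RG`) for the window around `k₀`, with the class `- k₀`
avoided, is transported to the classes of `p` by `p ≡ b (a r)⁻¹`; the few remaining forms are treated by the repelling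
weights and the Bombieri-Vinogradov theorem of the starting files.
-/

namespace Pool.Agent.Results.MP_2f88e5_nt.RunsAtEveryPlace

/-- The record scale `f(x) = log x (log₂ x)² log₄ x / (log₃ x)²` (iterated natural logarithms). -/
noncomputable def f (x : ℝ) : ℝ :=
  Real.log x * (Real.log (Real.log x)) ^ 2 * Real.log (Real.log (Real.log (Real.log x))) /
    (Real.log (Real.log (Real.log x))) ^ 2

/-- For all `D`, all nonzero integers `a`, `b` and every squarefree `d` there is `c > 0` such that for all large `X`, all `h`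
prime to `d` and ALL integers `k₀` with `|k₀| ≤ X^D`: for at least `X^(9/10)` primes `p ∈ (X, 3X]`, `p ≡ h (mod d)`, none of
the numbers `|a k p + b|`, `k` an integer, `k ≠ 0`, `|k - k₀| ≤ c f(X)`, is prime. -/
theorem result (D : ℕ) (a b : ℤ) (ha : a ≠ 0) (hb : b ≠ 0) (d : ℕ) (hd : Squarefree d) :
    ∃ c : ℝ, 0 < c ∧ ∃ X₀ : ℝ, ∀ X : ℝ, X₀ ≤ X → ∀ h : ℕ, h.Coprime d → ∀ k₀ : ℤ, |(k₀ : ℝ)| ≤ X ^ D →
    X ^ (9 / 10 : ℝ) ≤ ({p : ℕ | p.Prime ∧ X < p ∧ (p : ℝ) ≤ 3 * X ∧ p ≡ h [MOD d] ∧
      ∀ k : ℤ, k ≠ 0 → |((k - k₀ : ℤ) : ℝ)| ≤ c * f X → ¬ (a * k * p + b).natAbs.Prime}.ncard : ℝ) := by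
  have hφa : (0 : ℝ) < (a.natAbs.totient : ℝ) := by
    exact_mod_cast Nat.totient_pos.2 (Int.natAbs_pos.2 ha)
  have hφb : (0 : ℝ) < (b.natAbs.totient : ℝ) := by
    exact_mod_cast Nat.totient_pos.2 (Int.natAbs_pos.2 hb)
  set A₀ : ℝ := max (|(a : ℝ)| / (a.natAbs.totient : ℝ)) (|(b : ℝ)| / (b.natAbs.totient : ℝ)) with hA₀
  have ha1 : |(a : ℝ)| ≤ A₀ * (a.natAbs.totient : ℝ) := by
    rw [← div_le_iff₀ hφa]
    exact le_max_left _ _
  have hb1 : |(b : ℝ)| ≤ A₀ * (b.natAbs.totient : ℝ) := by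
    rw [← div_le_iff₀ hφb]
    exact le_max_right _ _
  obtain ⟨c, hc, X₀, hX₀⟩ := Pool.Agent.Helper12.PK.main_runs (D + 1) 1 A₀ d hd
  refine ⟨c, hc, max (max X₀ 1) (Real.exp (max (max |(a : ℝ)| |(b : ℝ)|) 1)), fun X hXX h hh k₀ hk₀ => ?_⟩
  have hX1 : 1 ≤ X := ((le_max_right _ _).trans (le_max_left _ _)).trans hXX
  have hlog : max (max |(a : ℝ)| |(b : ℝ)|) 1 ≤ Real.log X := by
    rw [← Real.log_exp (max (max |(a : ℝ)| |(b : ℝ)|) 1)]
    exact Real.log_le_log (Real.exp_pos _) ((le_max_right _ _).trans hXX)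
  have hL1 : 1 ≤ Real.log X := (le_max_right _ _).trans hlog
  have hLp : Real.log X ≤ (Real.log X) ^ (D + 1) := le_self_pow₀ hL1 (by omega)
  have haX : |(a : ℝ)| ≤ (Real.log X) ^ (D + 1) :=
    (((le_max_left _ _).trans (le_max_left _ _)).trans hlog).trans hLp
  have hbX : |(b : ℝ)| ≤ (Real.log X) ^ (D + 1) :=
    (((le_max_right _ _).trans (le_max_left _ _)).trans hlog).trans hLp
  have h2 := hX₀ X (((le_max_left _ _).trans (le_max_left _ _)).trans hXX) a b ha hb haX hbX ha1 hb1 h hh k₀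
    (hk₀.trans (pow_le_pow_right₀ hX1 (by omega)))
  refine h2.trans ?_
  rw [Nat.cast_le]
  refine Set.ncard_le_ncard ?_ ?_
  · rintro p ⟨g1, g2, g3, g4, g5⟩
    refine ⟨g1, g2, g3, g4, fun k hk1 hk2 hp => ?_⟩
    rcases Int.natAbs_eq (a * k * p + b) with h4 | h4
    · exact g5 k hk1 hk2 1 (by simp) (by simp) _ hp (by rw [one_mul]; exact h4.symm)
    · exact g5 k hk1 hk2 (-1) (by simp) (by simp) _ hp (by rw [neg_one_mul]; exact h4.symm)
  · apply (Set.finite_Iic ⌊3 * X⌋₊).subset
    intro p hp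
    exact Set.mem_Iic.2 (Nat.le_floor hp.2.2.1)

end Pool.Agent.Results.MP_2f88e5_nt.RunsAtEveryPlace
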